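import Pool.Agent.Helper36_M1D.Stmts

set_option autoImplicit false
open Set Topology Filter

namespace Pool.Agent.MD.H21

theorem cnt (hFK : FK) (hTAU : TAU) : CNT := by
  intro M G _ _ D k U hU hcov
  obtain ⟨b, hbc, -, hb⟩ := TopologicalSpace.exists_countable_basis M
  set S : Set G := {g : G | ∃ p ∈ D.K g, ∀ i, D.toX ⁻¹' (U i) ∉ 𝓝 p} with hS
  have key : ∀ g : S, ∃ (p : M) (s : ℚ) (B : Set M), p ∈ D.K g.1 ∧
      (∀ i, D.toX ⁻¹' (U i) ∉ 𝓝 p) ∧ B ∈ b ∧ p ∈ B ∧ D.NN p < s ∧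
      ∃ i, ∀ q ∈ B, D.f g.1 q < s → D.toX q ∈ U i := by
    rintro ⟨g, p, hp, hbad⟩
    have h1 : D.toX p ∈ ⋃ i, U i := by rw [hcov]; trivial
    obtain ⟨i, hi⟩ := mem_iUnion.1 h1
    have h2 : U i ∈ 𝓝 (D.toX p) := (hU i).mem_nhds hi
    obtain ⟨t, ht, O, hO, hpO, hOU⟩ := (hTAU.nhds_mem M G D g p (U i) hp).1 h2
    obtain ⟨s, hs1, hs2⟩ := exists_rat_btwn ht
    obtain ⟨B, hB, hpB, hBO⟩ := hb.exists_subset_of_mem_open hpO hO
    exact ⟨p, s, B, hp, hbad, hB, hpB, hs1, i, fun q hq hfq => hOU q (hBO hq) (hfq.trans hs2)⟩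
  choose p s B hpK hbad hBb hpB hs hex using key
  have hinj : Function.Injective (fun g : S => ((s g, ⟨B g, hBb g⟩) : ℚ × b)) := by
    intro g g' hgg
    simp only [Prod.mk.injEq, Subtype.mk.injEq] at hgg
    obtain ⟨hss, hBB⟩ := hgg
    by_contra hne
    have hne' : g.1 ≠ g'.1 := fun h => hne (Subtype.ext h)
    -- p g' is not in K g
    have hnot : p g' ∉ D.K g.1 := by
      intro hmem
      exact hne' (D.disj g.1 g'.1 (p g') hmem (hpK g'))
    have hcont := hFK.f_contAt M G D g.1 (p g') hnot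
    have hlt : D.f g.1 (p g') < s g := by
      calc D.f g.1 (p g') ≤ D.NN (p g') := hFK.f_le_NN M G D g.1 (p g')
        _ < s g' := hs g'
        _ = s g := by rw [hss]
    obtain ⟨i, hi⟩ := hex g
    apply hbad g' i
    have h1 : ∀ᶠ q in 𝓝 (p g'), D.f g.1 q < s g := hcont.eventually (Iio_mem_nhds hlt)
    have h2 : ∀ᶠ q in 𝓝 (p g'), q ∈ B g := by
      have : B g ∈ 𝓝 (p g') := by
        rw [hBB]; exact (hb.isOpen (hBb g')).mem_nhds (hpB g')
      exact this
    filter_upwards [h1, h2] with q hq1 hq2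
    exact hi q hq2 hq1
  have : Countable b := hbc.to_subtype
  have : Countable S := hinj.countable
  exact Set.countable_coe_iff.1 this

theorem dim1 (hC : CELL) : DIM1 := by
  intro Y _ h hh k U hU hcov
  have key : ∀ i, ∃ V : Set (unitInterval × Cant), IsOpen V ∧ h ⁻¹' V = U i := fun i =>
    hh.isOpen_iff.1 (hU i)
  choose V hV hVU using key
  obtain ⟨A, hAV, hAcl, hAcov, hAord⟩ := hC k V hV
  have hcovV : ∀ y, h y ∈ ⋃ j, V j := by
    intro y
    obtain ⟨i, hi⟩ := mem_iUnion.1 (hcov (mem_univ y))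
    rw [← hVU i] at hi
    exact mem_iUnion.2 ⟨i, hi⟩
  refine ⟨fun i => h ⁻¹' (A i), ?_, ?_, ?_, ?_⟩
  · intro i
    rw [← closure_subset_iff_isClosed]
    intro y hy
    apply hAcl i (h y) (hcovV y)
    have h1 := hh.continuous.closure_preimage_subset (A i)
    exact h1 hy
  · intro i y hy
    rw [← hVU i]
    exact hAV i hy
  · intro y _
    obtain ⟨i, hi⟩ := mem_iUnion.1 (hAcov (hcovV y))
    exact mem_iUnion.2 ⟨i, hi⟩
  · intro y
    exact hAord (h y)

theorem subt (hD : DIM1) : SUBT := by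
  intro Z _ F hF h hh k U hU hcov
  obtain ⟨A, hA, hAU, hAcov, hord⟩ := hD F h hh k (fun i => (Subtype.val : F → Z) ⁻¹' (U i))
    (fun i => (hU i).preimage continuous_subtype_val) (by
      intro y _
      obtain ⟨i, hi⟩ := mem_iUnion.1 (hcov y.2)
      exact mem_iUnion.2 ⟨i, hi⟩)
  refine ⟨fun i => Subtype.val '' (A i), ?_, ?_, ?_, ?_⟩
  · intro i
    exact hF.isClosedMap_subtype_val _ (hA i)
  · rintro i _ ⟨y, hy, rfl⟩
    exact hAU i hy
  · intro x hx
    obtain ⟨i, hi⟩ := mem_iUnion.1 (hAcov (mem_univ (⟨x, hx⟩ : F)))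
    exact mem_iUnion.2 ⟨i, ⟨x, hx⟩, hi, rfl⟩
  · intro x
    by_cases hx : x ∈ F
    · have : {i | x ∈ Subtype.val '' (A i)} = {i | (⟨x, hx⟩ : F) ∈ A i} := by
        ext i
        constructor
        · rintro ⟨y, hy, hyx⟩
          have : y = ⟨x, hx⟩ := Subtype.ext hyx
          rwa [this] at hy
        · intro hi
          exact ⟨⟨x, hx⟩, hi, rfl⟩
      show {i | x ∈ Subtype.val '' (A i)}.ncard ≤ 2
      rw [this]
      exact hord _
    · have : {i | x ∈ Subtype.val '' (A i)} = ∅ := by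
        ext i
        simp only [mem_ofPred_eq, mem_empty_iff_false, iff_false]
        rintro ⟨y, _, hyx⟩
        exact hx (hyx ▸ y.2)
      show {i | x ∈ Subtype.val '' (A i)}.ncard ≤ 2
      rw [this]
      simp

/-- interleaving -/
noncomputable def inter : (Cant × Cant) ≃ₜ Cant :=
  (Homeomorph.sumArrowHomeomorphProdArrow (ι := ℕ) (ι' := ℕ) (X := Bool)).symm.trans
    (Homeomorph.piCongrLeft (Y := fun _ : ℕ => Bool) Equiv.natSumNatEquivNat)

theorem piecem (_hFK : FK) (hTAU : TAU) (hS : SUBT) : PIECEM := by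
  intro G D F hF hdis
  have hcl : IsClosed (D.toM ⁻¹' F) := hF.preimage (hTAU.cont_toM MM G D)
  have hj : IsInducing (fun x : (D.toM ⁻¹' F : Set D.TX) => D.toM x.1) := by
    rw [isInducing_iff_nhds]
    intro x
    have hx : ∀ g, D.toM x.1 ∉ D.K g := fun g hg => (Set.disjoint_left.1 (hdis g)) x.2 hg
    have e1 : 𝓝 x.1 = comap D.toM (𝓝 (D.toM x.1)) := by
      ext V
      have h1 := hTAU.nhds_notMem MM G D (D.toM x.1) V hx
      have h2 : D.toX (D.toM x.1) = x.1 := rfl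
      rw [h2] at h1
      rw [h1, mem_comap]
      constructor
      · intro h
        exact ⟨_, h, fun y hy => hy⟩
      · rintro ⟨t, ht, htV⟩
        exact mem_of_superset ht (fun y hy => htV hy)
    rw [nhds_subtype_eq_comap, e1, comap_comap]
    rfl
  have hphi : IsInducing (fun p : MM => (((eM p).1, inter (eM p).2) : unitInterval × Cant)) := by
    have h1 := ((Homeomorph.refl unitInterval).prodCongr inter).isInducing
    exact h1.comp eM.isInducing
  exact hS D.TX (D.toM ⁻¹' F) hcl _ (hphi.comp hj)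

end Pool.Agent.MD.H21
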